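import Mathlib
import Pool.Agent.R621.HS.Approx

set_option autoImplicit false

/-!
# A computable structure of noncomputable rank that is not computably approximable
-/

namespace Pool.Agent.Results.MP_1cf0df_lc.NotApproximable

open Pool.Agent.Helper941.Dim Pool.Agent.R621.HS Pool.Agent.Helper941.Zeta

/-- The structure `A` is computably approximable: every computable infinitary sentence true in `A`
is true in some computable structure that is not isomorphic to `A`. -/
def CompApprox (A : SStr) : Prop :=
  ∀ φ, CompInf 0 φ → Sat A [] φ → ∃ B : SStr, SComp B ∧ Sat B [] φ ∧ ¬ SIso A B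

/-- The structure `A` has noncomputable rank: no computable ordinal `α` has the property in the
definition of the computable rank. -/
def NoncompRank (A : SStr) : Prop := ∀ α : Ordinal.{0}, ComputableOrd α → ¬ RankProp A α

/-- A check of the definition of satisfaction: isomorphic structures satisfy the same computable
infinitary formulas. -/
theorem sat_invariant {A B : SStr} {f : ℕ → ℕ} (hf : IsoMap A B f) {n e : ℕ} (he : CompInf n e)
    {a : List ℕ} (hn : a.length = n) (ha : ∀ x ∈ a, A.U x) : Sat A a e ↔ Sat B (a.map f) e := by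
  obtain ⟨α, s, hL⟩ := he
  exact sat_iso hf α s n e hL a hn ha

/-- A check of the definition of satisfaction: a formula of the first kind is satisfied iff the
quantifier-free formula holds, a disjunction is satisfied iff a disjunct is satisfied, and a
conjunction is satisfied iff all conjuncts are satisfied. -/
theorem sat_clauses (B : SStr) (a : List ℕ) :
    (∀ φ : QF, Sat B a (Nat.pair 0 φ.code) ↔ φ.Holds B a) ∧
    (∀ c, Sat B a (Nat.pair 1 c) ↔ ∃ m, Wce c m ∧ ∃ d : List ℕ, d.length = m.unpair.1 ∧
      (∀ x ∈ d, B.U x) ∧ Sat B (a ++ d) m.unpair.2) ∧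
    ∀ c, Sat B a (Nat.pair 2 c) ↔ ∀ m, Wce c m → ∀ d : List ℕ, d.length = m.unpair.1 →
      (∀ x ∈ d, B.U x) → Sat B (a ++ d) m.unpair.2 := by
  refine ⟨fun φ => sat_qf_iff, fun c => ?_, fun c => sat_con_iff⟩
  rw [sat_dis_iff]
  constructor
  · rintro ⟨m, d, h1, h2⟩
    exact ⟨m, h1, d, h2⟩
  · rintro ⟨m, h1, d, h2⟩
    exact ⟨m, d, h1, h2⟩

/-- There is a computable structure of noncomputable rank that is not computably approximable. -/
theorem result : ∃ A : SStr, SComp A ∧ NoncompRank A ∧ ¬ CompApprox A := by
  refine ⟨full AA, ⟨?_, ?_⟩, fun α hα => not_rankProp hα, fun h => ?_⟩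
  · exact ComputablePred.computable_iff.2 ⟨fun _ => true, Computable.const _, by
      funext a; simp [full]⟩
  · exact (Pool.Agent.Helper941.IsoProb.computablePred_comp
      (P := fun q : ℕ × ℕ × ℕ => AA q.1 q.2.1 q.2.2) aa_comp Computable.id).of_eq
      fun q => ⟨fun h => ⟨trivial, trivial, h⟩, fun h => h.2.2⟩
  · obtain ⟨φ, h1, h2, h3⟩ := exists_sentence
    obtain ⟨B, h4, h5, h6⟩ := h φ h1 h2
    exact h6 (h3 B h4 h5)

end Pool.Agent.Results.MP_1cf0df_lc.NotApproximable
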